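import Pool.Agent.W571.SD.Grow
import Pool.Agent.H986R2.K4.AW
import Pool.Agent.H986R2.K4.NL
import Pool.Agent.H986R2.K4.RT
import Pool.Agent.H986R2.K4.Lap

set_option autoImplicit false

namespace Pool.Agent.W571.SD

open Complex Filter Topology MeasureTheory Set
open Pool.Agent.H24R2.DZ (NN SB1a SB1b)
open Pool.Agent.H986R2.K4 (QQ S_AW S_NL aw nl rt lapQ)

/-- a shift of the argument -/
theorem iter_shift {F : ℂ → ℂ} (n : ℕ) (c z : ℂ) :
    iteratedDeriv n (fun z => F (z + c)) z = iteratedDeriv n F (z + c) := by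
  have h3 := congrFun (iteratedDeriv_comp_add_const n F c) z
  exact h3

theorem norm_one_add (y : ℝ) : ‖(1 : ℂ) + (y : ℂ) * I‖ ≤ 1 + |y| := by
  refine (norm_add_le _ _).trans ?_
  rw [norm_one, norm_mul, Complex.norm_I, mul_one, Complex.norm_real, Real.norm_eq_abs]

/-- the bound in the middle strip -/
theorem mid_bound {n : ℕ} {η : ℝ} {F : ℂ → ℂ} (hη : 0 ≤ η) (hη1 : η ≤ 1 / 200) (hN : NN n η F)
    (w : ℂ) (hw : |w.re| ≤ 1 / 2) (hw2 : ‖w‖ ≤ 19) :
    ‖F w‖ ≤ ‖F 1‖ * Real.exp (-(2 / 5 * n)) := by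
  have hn0 : (0 : ℝ) ≤ n := Nat.cast_nonneg n
  have key : ∀ w : ℂ, 1 / 1000 ≤ w.re → w.re ≤ 1 / 2 → ‖w‖ ≤ 19 →
      ‖F w‖ ≤ ‖F 1‖ * Real.exp (-(2 / 5 * n)) := by
    intro w h1 h2 h3
    have h4 := nn_grow hN (a := 1) (b := w) (by norm_num) h1 (by simp) (by linarith)
    refine h4.trans (mul_le_mul_of_nonneg_left (Real.exp_le_exp.2 ?_) (norm_nonneg _))
    have h5 : (w - 1).re ≤ -(1 / 2) := by
      rw [Complex.sub_re, Complex.one_re]; linarith
    have h6 : ‖w - 1‖ ≤ 20 := by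
      refine (norm_sub_le _ _).trans ?_
      rw [norm_one]; linarith
    have h7 : (n : ℝ) * (w - 1).re ≤ n * (-(1 / 2)) := mul_le_mul_of_nonneg_left h5 hn0
    have h8 : η * n * ‖w - 1‖ ≤ (1 / 200) * n * 20 := by
      apply mul_le_mul _ h6 (norm_nonneg _) (by positivity)
      exact mul_le_mul_of_nonneg_right hη1 hn0
    linarith
  by_cases h0 : |w.re| ≤ 1 / 1000
  · refine (hN.near w h0 (by linarith)).trans
      (mul_le_mul_of_nonneg_left (Real.exp_le_exp.2 ?_) (norm_nonneg _))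
    linarith
  · push Not at h0
    rcases le_total 0 w.re with hs | hs
    · rw [abs_of_nonneg hs] at h0 hw
      exact key w h0.le hw hw2
    · rw [abs_of_nonpos hs] at h0 hw
      have h1 := key (-((starRingEnd ℂ) w)) (by simpa using h0.le) (by simpa using hw)
        (by rw [norm_neg, RCLike.norm_conj]; exact hw2)
      rw [hN.symm, RCLike.norm_conj] at h1
      exact h1

/-- the shifted function is in the situation `QQ` -/
theorem toQQ {n : ℕ} {η η' : ℝ} {F : ℂ → ℂ} (hη : 0 ≤ η) (hη1 : η ≤ 1 / 200) (hη' : η ≤ η')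
    (hN : NN n η F) (y : ℝ) (hy : |y| ≤ 1 / 100) :
    QQ (1 / 2) 18 n η' (fun z => F (z + (y : ℂ) * I)) := by
  have hn0 : (0 : ℝ) ≤ n := Nat.cast_nonneg n
  have hyI : ‖(y : ℂ) * I‖ ≤ 1 / 100 := by
    rw [norm_mul, Complex.norm_I, mul_one, Complex.norm_real, Real.norm_eq_abs]; exact hy
  have hre : ∀ z : ℂ, (z + (y : ℂ) * I).re = z.re := by
    intro z; simp
  refine ⟨?_, ?_, ?_, ?_⟩
  · exact hN.diff.comp (differentiable_id.add_const _)
  · intro z
    have : -((starRingEnd ℂ) z) + (y : ℂ) * I = -((starRingEnd ℂ) (z + (y : ℂ) * I)) := by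
      rw [map_add, map_mul, Complex.conj_I, Complex.conj_ofReal]; ring
    show F (-((starRingEnd ℂ) z) + (y : ℂ) * I) = (starRingEnd ℂ) (F (z + (y : ℂ) * I))
    rw [this, hN.symm]
  · intro z h1 h2
    have h3 : ‖z + (y : ℂ) * I‖ ≤ 20 := (norm_add_le _ _).trans (by linarith)
    have h4 := hN.far (z + (y : ℂ) * I) (by rw [hre]; linarith) h3
    refine ⟨h4.1, ?_⟩
    have h5 : logDeriv (fun z => F (z + (y : ℂ) * I)) z = logDeriv F (z + (y : ℂ) * I) := by
      rw [logDeriv_apply, logDeriv_apply, deriv_comp_add_const]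
    rw [h5]
    have h6 := h4.2
    push_cast at h6
    exact h6.trans (mul_le_mul_of_nonneg_right hη' hn0)
  · intro z h1 h2
    show ‖F (z + (y : ℂ) * I)‖ ≤ ‖F (1 + (y : ℂ) * I)‖ * Real.exp (-(1 / 2 / 2 * n))
    have h3 := mid_bound hη hη1 hN (z + (y : ℂ) * I) (by rw [hre]; linarith)
      ((norm_add_le _ _).trans (by linarith))
    have h4 := nn_grow hN (a := 1 + (y : ℂ) * I) (b := 1) (by rw [hre]; norm_num) (by norm_num)
      ((norm_add_le _ _).trans (by rw [norm_one]; linarith)) (by simp)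
    have h5 : (1 - (1 + (y : ℂ) * I)).re = 0 := by simp
    have h6 : ‖(1 : ℂ) - (1 + (y : ℂ) * I)‖ ≤ 1 / 100 := by
      have : (1 : ℂ) - (1 + (y : ℂ) * I) = -((y : ℂ) * I) := by ring
      rw [this, norm_neg]; exact hyI
    rw [h5, mul_zero, zero_add] at h4
    have h7 : η * n * ‖(1 : ℂ) - (1 + (y : ℂ) * I)‖ ≤ 1 / 200 * n * (1 / 100) := by
      apply mul_le_mul _ h6 (norm_nonneg _) (by positivity)
      exact mul_le_mul_of_nonneg_right hη1 hn0
    calc ‖F (z + (y : ℂ) * I)‖ ≤ ‖F 1‖ * Real.exp (-(2 / 5 * n)) := h3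
      _ ≤ (‖F (1 + (y : ℂ) * I)‖ * Real.exp (1 / 200 * n * (1 / 100))) * Real.exp (-(2 / 5 * n)) := by
          apply mul_le_mul_of_nonneg_right _ (Real.exp_pos _).le
          exact h4.trans (mul_le_mul_of_nonneg_left (Real.exp_le_exp.2 h7) (norm_nonneg _))
      _ = ‖F (1 + (y : ℂ) * I)‖ * Real.exp (1 / 200 * n * (1 / 100) + -(2 / 5 * n)) := by
          rw [mul_assoc, ← Real.exp_add]
      _ ≤ _ := by
          apply mul_le_mul_of_nonneg_left (Real.exp_le_exp.2 _) (norm_nonneg _)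
          linarith

theorem sb1a : SB1a := by
  obtain ⟨η, n0, hη, h⟩ := aw lapQ (1 / 2) 18 (1 / 100) (by norm_num) (by norm_num) (by norm_num)
    (by norm_num) (by norm_num)
  refine ⟨min η (1 / 200), n0, lt_min hη (by norm_num), ?_⟩
  intro n F hn hN z h1 h2 h3
  have hQ := toQQ (le_min hη.le (by norm_num)) (min_le_right _ _) (min_le_left _ _) hN z.im h3
  have h4 := h n _ hn hQ z.re h1 (by linarith)
  rw [iter_shift] at h4
  rwa [Complex.re_add_im] at h4

theorem sb1b : SB1b := by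
  obtain ⟨κ1, η1, n1, hκ1, hκ1', hη1, hnl⟩ := nl (rt lapQ) (1 / 2) 18 (by norm_num) (by norm_num)
    (by norm_num)
  obtain ⟨η2, n2, hη2, haw⟩ := aw lapQ (1 / 2) 18 κ1 (by norm_num) (by norm_num)
    (by norm_num) hκ1 hκ1'
  refine ⟨min (min η1 η2) (1 / 200), max n1 n2, lt_min (lt_min hη1 hη2) (by norm_num), ?_⟩
  intro n F hn hN z h1 h3 h0
  have hη0 : 0 ≤ min (min η1 η2) (1 / 200) := le_min (lt_min hη1 hη2).le (by norm_num)
  have hQ1 := toQQ (η' := η1) hη0 (min_le_right _ _)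
    ((min_le_left _ _).trans (min_le_left _ _)) hN z.im h3
  have hQ2 := toQQ (η' := η2) hη0 (min_le_right _ _)
    ((min_le_left _ _).trans (min_le_right _ _)) hN z.im h3
  rcases le_total |z.re| κ1 with h4 | h4
  · have h5 := hnl n _ ((le_max_left _ _).trans hn) hQ1 z.re h4
      (by rw [iter_shift, Complex.re_add_im]; exact h0)
    rw [iter_shift, Complex.re_add_im] at h5
    exact h5
  · exfalso
    have h5 := haw n _ ((le_max_right _ _).trans hn) hQ2 z.re h4 (by linarith)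
    rw [iter_shift, Complex.re_add_im] at h5
    exact h5 h0

end Pool.Agent.W571.SD
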