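import Pool.Agent.H24R2.DZ.Spec

set_option autoImplicit false

namespace Pool.Agent.W571.SD

open Complex Filter Topology MeasureTheory Set
open Pool.Agent.H24R2.DZ (NN)

/-- growth of `F` along a segment -/
theorem grow {F : ℂ → ℂ} {M η : ℝ} (a b : ℂ)
    (h : ∀ t : ℝ, 0 ≤ t → t ≤ 1 → DifferentiableAt ℂ F (a + t * (b - a)) ∧
      F (a + t * (b - a)) ≠ 0 ∧ ‖logDeriv F (a + t * (b - a)) - M‖ ≤ η * M) :
    ‖F b‖ ≤ ‖F a‖ * Real.exp (M * (b - a).re + η * M * ‖b - a‖) := by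
  set φ : ℝ → ℂ := fun t => F (a + t * (b - a)) * cexp (-(M * t * (b - a))) with hφ
  set φ' : ℝ → ℂ := fun t => (b - a) * (logDeriv F (a + t * (b - a)) - M) * φ t with hφ'
  have hd : ∀ t : ℝ, 0 ≤ t → t ≤ 1 → HasDerivAt φ (φ' t) t := by
    intro t h0 h1
    obtain ⟨h2, h3, h4⟩ := h t h0 h1
    have h5 : HasDerivAt (fun t : ℝ => a + (t : ℂ) * (b - a)) (b - a) t := by
      have := ((Complex.ofRealCLM.hasDerivAt (x := t)).mul_const (b - a)).const_add a
      simpa using this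
    have h6 : HasDerivAt (fun t : ℝ => F (a + t * (b - a))) (deriv F (a + t * (b - a)) * (b - a)) t :=
      h2.hasDerivAt.comp_of_eq t h5 rfl
    have h7' : HasDerivAt (fun t : ℝ => (M : ℂ) * t * (b - a)) (M * (b - a)) t := by
      have := ((Complex.ofRealCLM.hasDerivAt (x := t)).const_mul (M : ℂ)).mul_const (b - a)
      simpa using this
    have h7 : HasDerivAt (fun t : ℝ => -((M : ℂ) * t * (b - a))) (-(M * (b - a))) t := h7'.neg
    have h8 := h6.mul h7.cexp
    refine h8.congr_deriv ?_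
    simp only [hφ', hφ, logDeriv_apply]
    field_simp
    ring
  have hg := norm_le_gronwallBound_of_norm_deriv_right_le (f := φ) (f' := φ') (δ := ‖F a‖)
    (K := η * M * ‖b - a‖) (ε := 0) (a := 0) (b := 1)
    (fun t ht => (hd t ht.1 ht.2).continuousAt.continuousWithinAt)
    (fun t ht => (hd t ht.1 ht.2.le).hasDerivWithinAt)
    (by simp [hφ])
    (fun t ht => by
      have h1 := (h t ht.1 ht.2.le).2.2
      rw [hφ']
      simp only
      rw [norm_mul, norm_mul, add_zero]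
      apply mul_le_mul_of_nonneg_right _ (norm_nonneg _)
      rw [mul_comm]
      exact mul_le_mul_of_nonneg_right h1 (norm_nonneg _)) 1 (by simp)
  rw [gronwallBound_ε0] at hg
  have e1 : φ 1 = F b * cexp (-(M * (b - a))) := by
    rw [hφ]; simp
  have e2 : ‖cexp (-((M : ℂ) * (b - a)))‖ = Real.exp (-(M * (b - a).re)) := by
    rw [Complex.norm_exp, Complex.neg_re, Complex.re_ofReal_mul]
  rw [e1, norm_mul, e2, sub_zero, mul_one] at hg
  calc ‖F b‖ = (‖F b‖ * Real.exp (-(M * (b - a).re))) * Real.exp (M * (b - a).re) := by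
        rw [mul_assoc, ← Real.exp_add]; simp
    _ ≤ (‖F a‖ * Real.exp (η * M * ‖b - a‖)) * Real.exp (M * (b - a).re) := by gcongr
    _ = _ := by rw [mul_assoc, ← Real.exp_add]; congr 2; ring

/-- convexity of the far region -/
theorem far_seg {a b : ℂ} (ha : 1 / 1000 ≤ a.re) (hb : 1 / 1000 ≤ b.re) (ha' : ‖a‖ ≤ 20)
    (hb' : ‖b‖ ≤ 20) {t : ℝ} (h0 : 0 ≤ t) (h1 : t ≤ 1) :
    1 / 1000 ≤ (a + t * (b - a)).re ∧ ‖a + t * (b - a)‖ ≤ 20 := by
  have e : a + t * (b - a) = ((1 - t : ℝ) : ℂ) * a + (t : ℂ) * b := by push_cast; ring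
  rw [e]
  constructor
  · rw [Complex.add_re, Complex.re_ofReal_mul, Complex.re_ofReal_mul]
    nlinarith
  · refine (norm_add_le _ _).trans ?_
    rw [norm_mul, norm_mul, Complex.norm_real, Complex.norm_real, Real.norm_of_nonneg h0,
      Real.norm_of_nonneg (by linarith)]
    nlinarith

/-- growth for `NN` between two points of the far region -/
theorem nn_grow {m η : ℝ} {F : ℂ → ℂ} (hN : NN m η F) {a b : ℂ} (ha : 1 / 1000 ≤ a.re)
    (hb : 1 / 1000 ≤ b.re) (ha' : ‖a‖ ≤ 20) (hb' : ‖b‖ ≤ 20) :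
    ‖F b‖ ≤ ‖F a‖ * Real.exp (m * (b - a).re + η * m * ‖b - a‖) := by
  apply grow
  intro t h0 h1
  obtain ⟨h2, h3⟩ := far_seg ha hb ha' hb' h0 h1
  exact ⟨hN.diff _, (hN.far _ h2 h3).1, (hN.far _ h2 h3).2⟩

end Pool.Agent.W571.SD
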